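/-
A `T₁` space whose ring of functions continuous on a dense cozero set is not almost regular: the
real line with an infinite cofinite space attached at the origin.
-/
import Mathlib

set_option autoImplicit false

open Set Topology

namespace Pool.Agent.Results.MP_3eafcc_gt.Wedge

universe u

/-- The ring `T''(X)`: the real functions on `X` that are continuous on some dense cozero set. -/
def T2 (X : Type u) [TopologicalSpace X] : Subring (X → ℝ) where
  carrier := {f | ∃ g : X → ℝ, Continuous g ∧ Dense {x | g x ≠ 0} ∧ ContinuousOn f {x | g x ≠ 0}}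
  zero_mem' := ⟨fun _ => 1, continuous_const, by simp, continuousOn_const⟩
  one_mem' := ⟨fun _ => 1, continuous_const, by simp, continuousOn_const⟩
  add_mem' := by
    rintro f f' ⟨g, hg, hd, hf⟩ ⟨g', hg', hd', hf'⟩
    have h : {x | g x * g' x ≠ 0} = {x | g x ≠ 0} ∩ {x | g' x ≠ 0} := by
      ext x
      simp
    refine ⟨fun x => g x * g' x, hg.mul hg', ?_, ?_⟩
    · rw [h]
      exact hd.inter_of_isOpen_left hd' (isOpen_ne_fun hg continuous_const)
    · rw [h]
      exact (hf.mono inter_subset_left).add (hf'.mono inter_subset_right)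
  mul_mem' := by
    rintro f f' ⟨g, hg, hd, hf⟩ ⟨g', hg', hd', hf'⟩
    have h : {x | g x * g' x ≠ 0} = {x | g x ≠ 0} ∩ {x | g' x ≠ 0} := by
      ext x
      simp
    refine ⟨fun x => g x * g' x, hg.mul hg', ?_, ?_⟩
    · rw [h]
      exact hd.inter_of_isOpen_left hd' (isOpen_ne_fun hg continuous_const)
    · rw [h]
      exact (hf.mono inter_subset_left).mul (hf'.mono inter_subset_right)
  neg_mem' := by
    rintro f ⟨g, hg, hd, hf⟩
    exact ⟨g, hg, hd, hf.neg⟩

/-- A commutative ring is almost regular if every element is a unit or a zero divisor. -/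
def AlmostRegular (R : Type u) [CommRing R] : Prop :=
  ∀ a : R, IsUnit a ∨ ∃ b : R, b ≠ 0 ∧ a * b = 0

/-- The points of the space: the real line and countably many further points, which together with
the origin form a cofinite space. -/
inductive W : Type
  | line : ℝ → W
  | extra : ℕ → W

instance : TopologicalSpace W where
  IsOpen U := IsOpen (W.line ⁻¹' U) ∧
    ((W.line 0 ∈ U ∨ ∃ n, W.extra n ∈ U) → (W.extra ⁻¹' U)ᶜ.Finite)
  isOpen_univ := ⟨isOpen_univ, fun _ => by simp⟩
  isOpen_inter := by
    rintro U V ⟨hU1, hU2⟩ ⟨hV1, hV2⟩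
    refine ⟨hU1.inter hV1, fun h => ?_⟩
    rw [preimage_inter, compl_inter]
    refine Finite.union (hU2 ?_) (hV2 ?_)
    · exact h.imp (fun h => h.1) fun ⟨n, hn⟩ => ⟨n, hn.1⟩
    · exact h.imp (fun h => h.2) fun ⟨n, hn⟩ => ⟨n, hn.2⟩
  isOpen_sUnion := by
    intro S hS
    refine ⟨?_, fun h => ?_⟩
    · rw [preimage_sUnion]
      exact isOpen_biUnion fun U hU => (hS U hU).1
    · obtain ⟨U, hU, h'⟩ : ∃ U ∈ S, W.line 0 ∈ U ∨ ∃ n, W.extra n ∈ U := by
        rcases h with ⟨U, hU, h⟩ | ⟨n, U, hU, h⟩
        · exact ⟨U, hU, Or.inl h⟩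
        · exact ⟨U, hU, Or.inr ⟨n, h⟩⟩
      exact ((hS U hU).2 h').subset (compl_subset_compl.2 (preimage_mono (subset_sUnion_of_mem hU)))

theorem isOpen_W (U : Set W) : IsOpen U ↔ IsOpen (W.line ⁻¹' U) ∧
    ((W.line 0 ∈ U ∨ ∃ n, W.extra n ∈ U) → (W.extra ⁻¹' U)ᶜ.Finite) := Iff.rfl

instance : T1Space W := by
  refine ⟨fun x => ?_⟩
  rw [← isOpen_compl_iff, isOpen_W]
  cases x with
  | line x =>
    constructor
    · have h : W.line ⁻¹' ({W.line x}ᶜ : Set W) = {x}ᶜ := by
        ext y
        simp
      rw [h]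
      exact isOpen_compl_singleton
    · intro _
      have h : (W.extra ⁻¹' ({W.line x}ᶜ : Set W))ᶜ = ∅ := by
        ext y
        simp
      rw [h]
      exact finite_empty
  | extra n =>
    constructor
    · have h : W.line ⁻¹' ({W.extra n}ᶜ : Set W) = univ := by
        ext y
        simp
      rw [h]
      exact isOpen_univ
    · intro _
      have h : (W.extra ⁻¹' ({W.extra n}ᶜ : Set W))ᶜ = {n} := by
        ext y
        simp
      rw [h]
      exact finite_singleton n

theorem continuous_line : Continuous W.line := by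
  rw [continuous_def]
  intro U hU
  exact hU.1

/-- two nonempty open sets that meet the cofinite part have a common extra point -/
theorem meet {U V : Set W} (hU : IsOpen U) (hV : IsOpen V)
    (hU' : W.line 0 ∈ U ∨ ∃ n, W.extra n ∈ U) (hV' : W.line 0 ∈ V ∨ ∃ n, W.extra n ∈ V) :
    ∃ n, W.extra n ∈ U ∩ V := by
  have h1 := (hU.2 hU').union (hV.2 hV')
  obtain ⟨n, hn⟩ := h1.exists_notMem
  rw [mem_union, not_or, notMem_compl_iff, notMem_compl_iff] at hn
  exact ⟨n, hn.1, hn.2⟩

/-- a function continuous on an open set that contains the cofinite part is constant there -/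
theorem const_extra {f : W → ℝ} {S : Set W} (hS : IsOpen S) (hf : ContinuousOn f S) {x y : W}
    (hx : x ∈ S) (hy : y ∈ S) (hx' : x = W.line 0 ∨ ∃ n, x = W.extra n)
    (hy' : y = W.line 0 ∨ ∃ n, y = W.extra n) : f x = f y := by
  by_contra hne
  obtain ⟨A, B, hA, hB, hxA, hyB, hAB⟩ := t2_separation hne
  have hA' := hf.isOpen_inter_preimage hS hA
  have hB' := hf.isOpen_inter_preimage hS hB
  have e : ∀ (z : W) (U : Set W), z ∈ U → (z = W.line 0 ∨ ∃ n, z = W.extra n) →
      W.line 0 ∈ U ∨ ∃ n, W.extra n ∈ U := by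
    rintro z U hz (rfl | ⟨n, rfl⟩)
    · exact Or.inl hz
    · exact Or.inr ⟨n, hz⟩
  obtain ⟨n, hn1, hn2⟩ := meet hA' hB' (e x _ ⟨hx, hxA⟩ hx') (e y _ ⟨hy, hyB⟩ hy')
  exact Set.disjoint_left.1 hAB hn1.2 hn2.2

/-- the function that is `x` on the line and `0` at the extra points -/
def fn : W → ℝ
  | W.line x => x
  | W.extra _ => 0

theorem continuous_fn : Continuous fn := by
  rw [continuous_def]
  intro U hU
  rw [isOpen_W]
  refine ⟨hU, fun h => ?_⟩
  have h0 : (0 : ℝ) ∈ U := by
    rcases h with h | ⟨n, h⟩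
    · exact h
    · exact h
  have h1 : (W.extra ⁻¹' (fn ⁻¹' U))ᶜ = ∅ := by
    ext n
    simp [fn, h0]
  rw [h1]
  exact finite_empty

theorem fn_mem : fn ∈ T2 W := ⟨fun _ => 1, continuous_const, by simp, continuous_fn.continuousOn⟩

/-- **Main theorem.** There is a `T₁` space `X` such that the ring `T''(X)` is not almost
regular. -/
theorem result : ∃ (X : Type) (_ : TopologicalSpace X), T1Space X ∧ ¬ AlmostRegular (T2 X) := by
  refine ⟨W, inferInstance, inferInstance, fun h => ?_⟩
  rcases h ⟨fn, fn_mem⟩ with h | ⟨⟨b, g, hg, hd, hb⟩, hne, h⟩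
  · obtain ⟨c, hc⟩ := h.exists_right_inv
    have h1 := congrFun (congrArg Subtype.val hc) (W.extra 0)
    change (0 : ℝ) * c.1 (W.extra 0) = 1 at h1
    rw [zero_mul] at h1
    exact zero_ne_one h1
  · apply hne
    have h1 : ∀ x, fn x * b x = 0 := fun x => congrFun (congrArg Subtype.val h) x
    have hbl : ∀ x : ℝ, x ≠ 0 → b (W.line x) = 0 := by
      intro x hx
      exact (mul_eq_zero.1 (h1 (W.line x))).resolve_left hx
    -- the cozero set contains the extra points and the origin
    have hSo : IsOpen {x | g x ≠ 0} := isOpen_ne_fun hg continuous_const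
    have hopen : IsOpen (range W.extra) := by
      rw [isOpen_W]
      constructor
      · have h : W.line ⁻¹' range W.extra = ∅ := by
          ext y
          simp
        rw [h]
        exact isOpen_empty
      · intro _
        have h : (W.extra ⁻¹' range W.extra)ᶜ = ∅ := by
          ext y
          simp
        rw [h]
        exact finite_empty
    obtain ⟨_, ⟨n, rfl⟩, hn⟩ := hd.inter_open_nonempty _ hopen ⟨W.extra 0, 0, rfl⟩
    have hmem : ∀ x : W, (x = W.line 0 ∨ ∃ n, x = W.extra n) → g x ≠ 0 := by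
      intro x hx
      rw [const_extra isOpen_univ hg.continuousOn (mem_univ x) (mem_univ (W.extra n)) hx
        (Or.inr ⟨n, rfl⟩)]
      exact hn
    have h0 : b (W.line 0) = 0 := by
      have hc : ContinuousAt (fun x : ℝ => b (W.line x)) 0 :=
        ((hb.continuousAt (hSo.mem_nhds (hmem _ (Or.inl rfl)))).comp
          continuous_line.continuousAt)
      have h2 : Filter.Tendsto (fun x : ℝ => b (W.line x)) (𝓝[≠] 0) (𝓝 (b (W.line 0))) :=
        hc.tendsto.mono_left nhdsWithin_le_nhds
      have h3 : Filter.Tendsto (fun x : ℝ => b (W.line x)) (𝓝[≠] 0) (𝓝 0) := by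
        refine tendsto_const_nhds.congr' ?_
        filter_upwards [self_mem_nhdsWithin] with x hx
        exact (hbl x hx).symm
      exact tendsto_nhds_unique h2 h3
    apply Subtype.ext
    funext x
    change b x = 0
    cases x with
    | line x =>
      by_cases hx : x = 0
      · rw [hx, h0]
      · exact hbl x hx
    | extra n =>
      rw [const_extra hSo hb (hmem _ (Or.inr ⟨n, rfl⟩)) (hmem _ (Or.inl rfl)) (Or.inr ⟨n, rfl⟩)
        (Or.inl rfl), h0]

end Pool.Agent.Results.MP_3eafcc_gt.Wedge
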